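import Pool.Agent.MP_797bdc_co.Mg.Two

open Pool.Agent.MP_797bdc_co

/-- For `d = 2` the restricted base-exchange chain is connected. -/
theorem Pool.Agent.Results.MP_797bdc_co.ConnectedDimTwo.result (n : ℕ) (hn : 3 ≤ n)
    (T T' : Finset (Finset (Fin n)))
    (hT : IsHypertree n 2 T) (hc : Collapsible 2 T)
    (hT' : IsHypertree n 2 T') (hc' : Collapsible 2 T') :
    Relation.ReflTransGen (Exchange n 2) T T' :=
  connected_two hn T T' hT hc hT' hc'
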