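import Pool.Agent.MP_797bdc_co.Lk.Fin

open Pool.Agent.MP_797bdc_co

/-- The restricted base-exchange chain is not connected in general. -/
theorem Pool.Agent.Results.MP_797bdc_co.Disconnected.result :
    ∃ d n : ℕ, 2 ≤ d ∧ d + 1 ≤ n ∧ ∃ T T' : Finset (Finset (Fin n)),
      IsHypertree n d T ∧ Collapsible d T ∧ IsHypertree n d T' ∧ Collapsible d T' ∧
        ¬ Relation.ReflTransGen (Exchange n d) T T' :=
  Lk.main
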